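import Pool.Agent.Y585.BC.Gen
import Pool.Agent.Results.MP_b30d95_gt.BallAndCube

set_option autoImplicit false

namespace Pool.Agent.Results.MP_b30d95_gt.FacetNumbers

/-- A convex polytope: the convex hull of finitely many points of `ℝ^d`. -/
def IsPolytope {d : ℕ} (P : Set (EuclideanSpace ℝ (Fin d))) : Prop :=
  ∃ V : Finset (EuclideanSpace ℝ (Fin d)),
    P = convexHull ℝ (V : Set (EuclideanSpace ℝ (Fin d)))

/-- `F` is a facet of `P`: it is the nonempty intersection of `P` with a supporting hyperplane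
`{x | ⟪u, x⟫ = h}` of `P`, and it has dimension `d - 1`. -/
def IsFacet {d : ℕ} (P F : Set (EuclideanSpace ℝ (Fin d))) : Prop :=
  ∃ (u : EuclideanSpace ℝ (Fin d)) (h : ℝ), u ≠ 0 ∧ (∀ x ∈ P, inner ℝ u x ≤ h) ∧
    F = {x | x ∈ P ∧ inner ℝ u x = h} ∧ F.Nonempty ∧
    Module.finrank ℝ (vectorSpan ℝ F) + 1 = d

/-- `σ(P)`: the largest distance from a point of `P` to the origin. -/
noncomputable def sigma {d : ℕ} (P : Set (EuclideanSpace ℝ (Fin d))) : ℝ :=
  sSup ((fun x => ‖x‖) '' P)

/-- The cube `{x | |x_i| ≤ 1 for all i}`. -/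
def cube (d : ℕ) : Set (EuclideanSpace ℝ (Fin d)) := {x | ∀ i, |x i| ≤ 1}

/-- `P` is the product of `k` regular simplices of dimension `q` which are circumscribed about the
unit balls of `k` mutually orthogonal subspaces of dimension `q`: the outer unit normals of `P` form
`k` groups of `q + 1` vectors, distinct vectors of one group have the inner product `-1/q` (so they
are the outer unit normals of a regular simplex), vectors of different groups are orthogonal, and
all facet hyperplanes have distance one from the origin. -/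
def IsSimplexProduct {d : ℕ} (k q : ℕ) (P : Set (EuclideanSpace ℝ (Fin d))) : Prop :=
  ∃ c : Fin k → Fin (q + 1) → EuclideanSpace ℝ (Fin d),
    (∀ b i, ‖c b i‖ = 1) ∧ (∀ b i j, i ≠ j → inner ℝ (c b i) (c b j) = -1 / (q : ℝ)) ∧
    (∀ b b' i j, b ≠ b' → inner ℝ (c b i) (c b' j) = 0) ∧
    ∀ x, x ∈ P ↔ ∀ b i, inner ℝ (c b i) x ≤ 1

/-- The ball-and-cube problem for all numbers of facets: a convex polytope `P ⊆ ℝ^d` with exactly
`d + k` facets that contains the unit ball has `σ(P) ≥ d / √k` (the maximum is attained); if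
`d = k q`, equality holds if and only if `P` is the product of `k` regular simplices of dimension
`q` circumscribed about the unit balls of `k` mutually orthogonal subspaces. For `k = d`, that is
for exactly `2d` facets, this is `σ(P) ≥ √d` with equality if and only if `P` is congruent to the
cube `[-1,1]^d`. -/
theorem result (d k : ℕ) (hd : 1 ≤ d) (hk : 1 ≤ k) (P : Set (EuclideanSpace ℝ (Fin d)))
    (hP : IsPolytope P) (hF : {F | IsFacet P F}.ncard = d + k)
    (hB : Metric.closedBall (0 : EuclideanSpace ℝ (Fin d)) 1 ⊆ P) :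
    IsGreatest ((fun x => ‖x‖) '' P) (sigma P) ∧
    (d : ℝ) / Real.sqrt k ≤ sigma P ∧
    (∀ q : ℕ, d = k * q → (sigma P = (d : ℝ) / Real.sqrt k ↔ IsSimplexProduct k q P)) ∧
    (k = d → Real.sqrt d ≤ sigma P ∧ (sigma P = Real.sqrt d ↔
      ∃ g : EuclideanSpace ℝ (Fin d) ≃ᵢ EuclideanSpace ℝ (Fin d), P = g '' cube d)) := by
  classical
  have hP0 := hP
  obtain ⟨V, hV⟩ := hP
  have hcomp : IsCompact P := by
    rw [hV]; exact Set.Finite.isCompact_convexHull (𝕜 := ℝ) V.finite_toSet
  have hclosed : IsClosed P := hcomp.isClosed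
  have hconv : Convex ℝ P := by rw [hV]; exact convex_convexHull ℝ _
  have h0P : (0 : EuclideanSpace ℝ (Fin d)) ∈ P := hB (by simp)
  have hgr : IsGreatest ((fun x => ‖x‖) '' P) (sigma P) :=
    (hcomp.image continuous_norm).isGreatest_sSup (Set.Nonempty.image _ ⟨0, h0P⟩)
  have hb : ∀ x ∈ P, ‖x‖ ≤ sigma P := fun x hx => hgr.2 ⟨x, hx, rfl⟩
  let i0 : Fin d := ⟨0, by omega⟩
  have hσ1 : 1 ≤ sigma P := by
    have h1 := hb (EuclideanSpace.single i0 1) (hB (by simp))
    simpa using h1
  have hσ0 : 0 < sigma P := by linarith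
  -- extreme points of the polar
  set X := (Helper840.BC.Q P).extremePoints ℝ with hX
  have hmaps : ∀ y ∈ X, Helper840.BC.face P y ∈ {F | IsFacet P F} := by
    intro y hy
    rw [hX, hV] at hy
    obtain ⟨v, hv, hv1⟩ := Helper840.BC.face_nonempty hd hy
    refine ⟨y, 1, Helper840.BC.ext_ne_zero hd hy, ?_, rfl, ?_, ?_⟩
    · intro x hx
      rw [real_inner_comm]
      rw [hV] at hx
      exact hy.1 x hx
    · rw [hV]
      exact ⟨v, Helper840.BC.tight_subset_face ⟨hv, hv1⟩⟩
    · rw [hV]
      exact Helper840.BC.face_finrank hd hy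
  have hinj : Set.InjOn (Helper840.BC.face P) X := by
    intro y hy z _ h
    rw [hX, hV] at hy
    rw [hV] at h
    exact Helper840.BC.face_inj hy h
  have hXne0 : ∀ y ∈ X, y ≠ 0 := by
    intro y hy
    rw [hX, hV] at hy
    exact Helper840.BC.ext_ne_zero hd hy
  have hFfin : {F | IsFacet P F}.Finite := Set.finite_of_ncard_ne_zero (by rw [hF]; omega)
  have hXfin : X.Finite := Set.Finite.of_finite_image
    (hFfin.subset (by rintro _ ⟨y, hy, rfl⟩; exact hmaps y hy)) hinj
  have hXcard : X.ncard ≤ d + k := by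
    rw [← hF]
    exact Set.ncard_le_ncard_of_injOn _ hmaps hinj hFfin
  have hXne : X.Nonempty := by
    by_contra hne
    rw [Set.not_nonempty_iff_eq_empty] at hne
    have h1 : EuclideanSpace.single i0 (sigma P + 1) ∈ P := by
      apply Helper840.BC.bipolar hclosed hconv hB
      intro y hy
      rw [← hX, hne] at hy
      exact hy.elim
    have h2 := hb _ h1
    rw [PiLp.norm_single, Real.norm_of_nonneg (by linarith)] at h2
    linarith
  have : Fintype X := hXfin.fintype
  have : Nonempty X := hXne.to_subtype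
  obtain ⟨g⟩ : Nonempty (X ↪ Fin (d + k)) := by
    apply Function.Embedding.nonempty_of_card_le
    rw [Fintype.card_fin, ← Set.toFinset_card, ← Set.ncard_eq_toFinset_card']
    omega
  set f : Fin (d + k) → X := Function.invFun g with hf
  have hfs : Function.Surjective f := Function.invFun_surjective g.injective
  have hy0 : ∀ i, (f i : EuclideanSpace ℝ (Fin d)) ≠ 0 := by
    intro i
    exact hXne0 _ (f i).2
  have hy1 : ∀ i, ‖(f i : EuclideanSpace ℝ (Fin d))‖ ≤ 1 := fun i =>
    Helper840.BC.Q_norm hB (f i).2.1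
  have hPiff : ∀ x, x ∈ P ↔ ∀ i, inner ℝ x (f i : EuclideanSpace ℝ (Fin d)) ≤ 1 := by
    intro x
    constructor
    · intro hx i
      exact (f i).2.1 x hx
    · intro h
      apply Helper840.BC.bipolar hclosed hconv hB
      intro y hy
      obtain ⟨i, hi⟩ := hfs ⟨y, hy⟩
      have h1 := h i
      rw [hi] at h1
      exact h1
  have hlow : (d : ℝ) / Real.sqrt k ≤ sigma P :=
    Y585.BC.lowerG hd hk _ hy0 hy1 (fun x hx => (hPiff x).mpr hx) hσ0 hb
  refine ⟨hgr, hlow, ?_, ?_⟩
  · intro q hdk
    have hq : 1 ≤ q := by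
      rcases Nat.eq_zero_or_pos q with h | h
      · rw [h, Nat.mul_zero] at hdk; omega
      · exact h
    constructor
    · intro heq
      exact Y585.BC.rigidG hk hq hdk _ hy0 hy1 hPiff (by rw [← heq]; exact hb)
    · rintro ⟨c, h1, h2, h3, h4⟩
      have h5 := Y585.BC.boundG hk hq hdk ⟨sigma P, hb⟩ c h1 h2 h3 h4
      obtain ⟨x, hx, hx2⟩ := hgr.1
      have h6 := h5 x hx
      simp only at hx2
      rw [hx2] at h6
      exact le_antisymm h6 hlow
  · intro hkd
    subst hkd
    have h7 := BallAndCube.result k hd P hP0 (by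
      have : (2 * k) = k + k := by ring
      rw [this]; exact hF) hB
    exact ⟨h7.2.1, h7.2.2⟩

end Pool.Agent.Results.MP_b30d95_gt.FacetNumbers
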